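import Pool.Agent.V11331.DLA.Defs

set_option autoImplicit false

open MeasureTheory ProbabilityTheory Filter Topology
open scoped ENNReal

noncomputable section

namespace Pool.Agent.V11331.DLA

variable {n : ℕ}

theorem walk_zero (σ : Equiv.Perm (Fin n)) : walk σ 0 = Finset.univ := by
  unfold walk
  simp

theorem walk_n (σ : Equiv.Perm (Fin n)) : walk σ n = ∅ := by
  unfold walk
  rw [Finset.filter_eq_empty_iff]
  intro x _
  have := (σ x).2
  omega

theorem card_walk (σ : Equiv.Perm (Fin n)) (i : ℕ) : (walk σ i).card = n - i := by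
  have h : (walk σ i).map σ.toEmbedding = Finset.univ.filter fun y : Fin n => i ≤ (y : ℕ) := by
    ext y
    simp only [walk, Finset.mem_map_equiv, Finset.mem_filter, Finset.mem_univ, true_and,
      Equiv.apply_symm_apply]
  rw [← Finset.card_map σ.toEmbedding, h, ← Finset.card_map Fin.valEmbedding]
  have h2 : (Finset.univ.filter fun y : Fin n => i ≤ (y : ℕ)).map Fin.valEmbedding =
      Finset.Ico i n := by
    ext k
    simp only [Finset.mem_map, Finset.mem_filter, Finset.mem_univ, true_and, Fin.valEmbedding_apply,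
      Finset.mem_Ico]
    constructor
    · rintro ⟨y, hy, rfl⟩
      exact ⟨hy, y.2⟩
    · rintro ⟨h3, h4⟩
      exact ⟨⟨k, h4⟩, h3, rfl⟩
  rw [h2, Nat.card_Ico]

/-- the product weights -/
def Sj (κ : ℝ) (n j : ℕ) : ℝ := ∏ i ∈ Finset.range j, (1 + κ * (n.choose (i + 1)))

/-- the weights of the levels -/
def w (κ : ℝ) (n : ℕ) : ℕ → ℝ
  | 0 => 1
  | j + 1 => κ * Sj κ n j

theorem Sj_pos {κ : ℝ} (hκ : 0 ≤ κ) (n j : ℕ) : 0 < Sj κ n j := by
  unfold Sj
  exact Finset.prod_pos fun i _ => by positivity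

theorem w_nonneg {κ : ℝ} (hκ : 0 ≤ κ) (n j : ℕ) : 0 ≤ w κ n j := by
  cases j with
  | zero => exact zero_le_one
  | succ j => exact mul_nonneg hκ (Sj_pos hκ n j).le

theorem sum_w (κ : ℝ) (n j : ℕ) :
    ∑ i ∈ Finset.range (j + 1), w κ n i * (n.choose i) = Sj κ n j := by
  induction j with
  | zero => simp [w, Sj]
  | succ j ih =>
    rw [Finset.sum_range_succ, ih]
    simp only [w]
    unfold Sj
    rw [Finset.prod_range_succ]
    ring

theorem Sj_mono {κ : ℝ} (hκ : 0 ≤ κ) (n : ℕ) : Monotone (Sj κ n) := by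
  refine monotone_nat_of_le_succ fun j => ?_
  unfold Sj
  rw [Finset.prod_range_succ]
  refine le_mul_of_one_le_right (Sj_pos hκ n j).le ?_
  have : 0 ≤ κ * (n.choose (j + 1)) := by positivity
  linarith

/-- the potential of a cluster -/
def M (κ : ℝ) (C : Finset (Finset (Fin n))) : ℝ := ∑ v ∈ C, w κ n v.card

theorem M_le {κ : ℝ} (hκ : 0 ≤ κ) (C : Finset (Finset (Fin n))) : M κ C ≤ Sj κ n n := by
  have h1 : M κ C ≤ ∑ v : Finset (Fin n), w κ n v.card :=
    Finset.sum_le_sum_of_subset_of_nonneg (Finset.subset_univ _) fun v _ _ => w_nonneg hκ n _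
  refine h1.trans (le_of_eq ?_)
  rw [← sum_w, ← Finset.powerset_univ, Finset.sum_powerset_apply_card, Finset.card_univ,
    Fintype.card_fin]
  refine Finset.sum_congr rfl fun i _ => ?_
  rw [nsmul_eq_mul, mul_comm]

theorem one_le_M {κ : ℝ} (hκ : 0 ≤ κ) {C : Finset (Finset (Fin n))} (hC : ∅ ∈ C) :
    1 ≤ M κ C := by
  have h := Finset.single_le_sum (f := fun v : Finset (Fin n) => w κ n v.card)
    (fun v _ => w_nonneg hκ n _) hC
  exact h

theorem hit_le {C : Finset (Finset (Fin n))} (hC : ∅ ∈ C) (σ : Equiv.Perm (Fin n)) :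
    hit C σ ≤ n := by
  unfold hit
  refine Nat.sInf_le ?_
  show walk σ n ∈ C
  rw [walk_n]
  exact hC

theorem hit_pos {C : Finset (Finset (Fin n))} (hC : ∅ ∈ C) (h1 : Finset.univ ∉ C)
    (σ : Equiv.Perm (Fin n)) : 1 ≤ hit C σ := by
  have hne : {i : ℕ | walk σ i ∈ C}.Nonempty := ⟨n, by
    show walk σ n ∈ C
    rw [walk_n]
    exact hC⟩
  have h2 : walk σ (hit C σ) ∈ C := Nat.sInf_mem hne
  by_contra h3
  have h4 : hit C σ = 0 := by omega
  rw [h4, walk_zero] at h2
  exact h1 h2

theorem next_M (κ : ℝ) {C : Finset (Finset (Fin n))} (hC : ∅ ∈ C) (h1 : Finset.univ ∉ C)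
    (σ : Equiv.Perm (Fin n)) : M κ (next C σ) = M κ C + κ * Sj κ n (n - hit C σ) := by
  have hp := hit_pos hC h1 σ
  have hl := hit_le hC σ
  have hn : walk σ (hit C σ - 1) ∉ C := by
    have : hit C σ - 1 < sInf {i : ℕ | walk σ i ∈ C} := by
      show hit C σ - 1 < hit C σ
      omega
    exact Nat.notMem_of_lt_sInf this
  unfold next
  rw [if_neg h1]
  unfold M
  rw [Finset.sum_insert hn, card_walk]
  have h2 : n - (hit C σ - 1) = (n - hit C σ) + 1 := by omega
  rw [h2]
  simp only [w]
  ring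

/-- the contribution of the occupied vertices on the walk -/
theorem hits_le {κ : ℝ} (hκ : 0 ≤ κ) {C : Finset (Finset (Fin n))} (hC : ∅ ∈ C)
    (σ : Equiv.Perm (Fin n)) :
    ∑ v ∈ C, (if walk σ (n - v.card) = v then w κ n v.card * (n.choose v.card) else 0) ≤
      Sj κ n (n - hit C σ) := by
  rw [← Finset.sum_filter, ← sum_w]
  have hcn : ∀ v : Finset (Fin n), v.card ≤ n := fun v => by
    have := Finset.card_le_univ v
    rwa [Fintype.card_fin] at this
  have hl := hit_le hC σ
  have hinj : Set.InjOn Finset.card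
      ((C.filter fun v => walk σ (n - v.card) = v : Finset (Finset (Fin n))) :
        Set (Finset (Fin n))) := by
    intro v hv v' hv' h
    have h1 := (Finset.mem_filter.1 (Finset.mem_coe.1 hv)).2
    have h2 := (Finset.mem_filter.1 (Finset.mem_coe.1 hv')).2
    rw [← h1, ← h2, h]
  rw [← Finset.sum_image (f := fun j => w κ n j * (n.choose j)) hinj]
  refine Finset.sum_le_sum_of_subset_of_nonneg ?_ fun j _ _ =>
    mul_nonneg (w_nonneg hκ n j) (Nat.cast_nonneg _)
  intro j hj
  obtain ⟨v, hv, rfl⟩ := Finset.mem_image.1 hj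
  obtain ⟨hvC, hv2⟩ := Finset.mem_filter.1 hv
  have h3 : hit C σ ≤ n - v.card := by
    unfold hit
    refine Nat.sInf_le ?_
    show walk σ (n - v.card) ∈ C
    rw [hv2]
    exact hvC
  have := hcn v
  rw [Finset.mem_range]
  omega

theorem count_le (v v' : Finset (Fin n)) (h : v.card = v'.card) (i : ℕ) :
    (Finset.univ.filter fun σ : Equiv.Perm (Fin n) => walk σ i = v).card ≤
      (Finset.univ.filter fun σ : Equiv.Perm (Fin n) => walk σ i = v').card := by
  obtain ⟨π, hπ⟩ : ∃ π : Equiv.Perm (Fin n), ∀ x, x ∈ v ↔ π x ∈ v' := by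
    let e : {x // x ∈ v} ≃ {x // x ∈ v'} := Finset.equivOfCardEq h
    refine ⟨e.extendSubtype, fun x => ⟨fun hx => e.extendSubtype_mem x hx, fun hx => ?_⟩⟩
    by_contra h2
    exact e.extendSubtype_not_mem x h2 hx
  refine Finset.card_le_card_of_injOn (fun σ => σ * π⁻¹) ?_ ?_
  · intro σ hσ
    have h1 : walk σ i = v := (Finset.mem_filter.1 (Finset.mem_coe.1 hσ)).2
    refine Finset.mem_coe.2 (Finset.mem_filter.2 ⟨Finset.mem_univ _, ?_⟩)
    ext y
    simp only [walk, Finset.mem_filter, Finset.mem_univ, true_and, Equiv.Perm.mul_apply]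
    have h2 : y = π (π⁻¹ y) := by simp
    have h3 : π⁻¹ y ∈ v ↔ y ∈ v' := by
      rw [hπ]
      rw [← h2]
    rw [← h3, ← h1]
    simp only [walk, Finset.mem_filter, Finset.mem_univ, true_and]
  · intro σ _ τ _ h3
    exact mul_right_cancel h3

theorem count_mul (v : Finset (Fin n)) :
    (Finset.univ.filter fun σ : Equiv.Perm (Fin n) => walk σ (n - v.card) = v).card *
      n.choose v.card = n.factorial := by
  have hcn : v.card ≤ n := by
    have := Finset.card_le_univ v
    rwa [Fintype.card_fin] at this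
  have h1 : (Finset.univ : Finset (Equiv.Perm (Fin n))).card = n.factorial := by
    rw [Finset.card_univ, Fintype.card_perm, Fintype.card_fin]
  have h2 : ∀ σ ∈ (Finset.univ : Finset (Equiv.Perm (Fin n))),
      walk σ (n - v.card) ∈ Finset.powersetCard v.card (Finset.univ : Finset (Fin n)) := by
    intro σ _
    rw [Finset.mem_powersetCard]
    refine ⟨Finset.subset_univ _, ?_⟩
    rw [card_walk]
    omega
  rw [← h1, Finset.card_eq_sum_card_fiberwise h2]
  have h3 : ∀ v' ∈ Finset.powersetCard v.card (Finset.univ : Finset (Fin n)),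
      (Finset.univ.filter fun σ : Equiv.Perm (Fin n) => walk σ (n - v.card) = v').card =
      (Finset.univ.filter fun σ : Equiv.Perm (Fin n) => walk σ (n - v.card) = v).card := by
    intro v' hv'
    have h4 := (Finset.mem_powersetCard.1 hv').2
    exact le_antisymm (count_le v' v h4 _) (count_le v v' h4.symm _)
  rw [Finset.sum_congr rfl h3, Finset.sum_const, Finset.card_powersetCard, Finset.card_univ,
    Fintype.card_fin, smul_eq_mul, mul_comm]

/-- the average of the hit contributions is the potential -/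
theorem avg_hits (κ : ℝ) (C : Finset (Finset (Fin n))) :
    ∑ σ : Equiv.Perm (Fin n), ∑ v ∈ C,
      (if walk σ (n - v.card) = v then w κ n v.card * (n.choose v.card) else 0) =
      n.factorial * M κ C := by
  rw [Finset.sum_comm]
  unfold M
  rw [Finset.mul_sum]
  refine Finset.sum_congr rfl fun v _ => ?_
  rw [← Finset.sum_filter, Finset.sum_const, nsmul_eq_mul]
  have h := count_mul v
  have h2 : (((Finset.univ.filter fun σ : Equiv.Perm (Fin n) =>
      walk σ (n - v.card) = v).card : ℕ) : ℝ) * (n.choose v.card : ℝ) = n.factorial := by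
    exact_mod_cast h
  rw [← h2]
  ring

theorem log_step {m d : ℝ} (hm : 1 ≤ m) (hd : 0 ≤ d) (hd1 : d ≤ 1) :
    Real.log m + d / (2 * m) ≤ Real.log (m + d) := by
  have hm0 : 0 < m := by linarith
  have h1 : m + d = m * (1 + d / m) := by
    field_simp
  have h2 : 0 ≤ d / m := by positivity
  rw [h1, Real.log_mul hm0.ne' (by positivity)]
  have h3 := Real.one_sub_inv_le_log_of_pos (x := 1 + d / m) (by positivity)
  have h4 : d / (2 * m) ≤ 1 - (1 + d / m)⁻¹ := by
    have h5 : 1 - (1 + d / m)⁻¹ = d / (m + d) := by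
      field_simp
      ring
    rw [h5]
    refine div_le_div_of_nonneg_left hd (by linarith) ?_
    linarith
  linarith

/-- the logarithm of the potential has drift at least `κ / 2` -/
theorem log_drift {κ : ℝ} (hκ : 0 ≤ κ) (h1 : κ * Sj κ n n ≤ 1) {C : Finset (Finset (Fin n))}
    (hC : ∅ ∈ C) (hu : Finset.univ ∉ C) :
    n.factorial * (Real.log (M κ C) + κ / 2) ≤
      ∑ σ : Equiv.Perm (Fin n), Real.log (M κ (next C σ)) := by
  have hM := one_le_M hκ hC
  have hM0 : 0 < M κ C := by linarith
  have hs : ∀ σ : Equiv.Perm (Fin n), Real.log (M κ C) +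
      κ * (∑ v ∈ C, (if walk σ (n - v.card) = v then w κ n v.card * (n.choose v.card) else 0)) /
        (2 * M κ C) ≤ Real.log (M κ (next C σ)) := by
    intro σ
    rw [next_M κ hC hu]
    refine le_trans ?_ (log_step hM (mul_nonneg hκ (Sj_pos hκ _ _).le) ?_)
    · have := hits_le hκ hC σ
      gcongr
    · refine le_trans ?_ h1
      exact mul_le_mul_of_nonneg_left (Sj_mono hκ n (Nat.sub_le _ _)) hκ
  refine le_trans (le_of_eq ?_) (Finset.sum_le_sum fun σ _ => hs σ)
  rw [Finset.sum_add_distrib, Finset.sum_const, Finset.card_univ, Fintype.card_perm,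
    Fintype.card_fin, nsmul_eq_mul, ← Finset.sum_div, ← Finset.mul_sum, avg_hits]
  field_simp

theorem empty_mem (ρ : ℕ → Equiv.Perm (Fin n)) (t : ℕ) : ∅ ∈ cluster ρ t := by
  induction t with
  | zero => simp [cluster]
  | succ t ih =>
    simp only [cluster]
    unfold next
    split_ifs
    · exact ih
    · exact Finset.mem_insert_of_mem ih

theorem univ_mono (ρ : ℕ → Equiv.Perm (Fin n)) {s t : ℕ} (hst : s ≤ t)
    (h : Finset.univ ∈ cluster ρ s) : Finset.univ ∈ cluster ρ t := by
  induction t, hst using Nat.le_induction with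
  | base => exact h
  | succ t _ ih =>
    simp only [cluster]
    unfold next
    rw [if_pos ih]
    exact ih

theorem cluster_congr {ρ ρ' : ℕ → Equiv.Perm (Fin n)} (t : ℕ) (h : ∀ i < t, ρ i = ρ' i) :
    cluster ρ t = cluster ρ' t := by
  induction t with
  | zero => rfl
  | succ t ih =>
    simp only [cluster]
    rw [ih fun i hi => h i (by omega), h t (by omega)]

end Pool.Agent.V11331.DLA

end
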