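import Mathlib

/-!
# Diffusion limited aggregation on the Boolean lattice

A vertex of `{0,1}^n` is the finite set of the coordinates which are `1`.
-/

set_option autoImplicit false

open MeasureTheory ProbabilityTheory Filter Topology
open scoped ENNReal

noncomputable section

namespace Pool.Agent.V11331.DLA

/-- Permutations carry the discrete σ-algebra. -/
instance permMS (n : ℕ) : MeasurableSpace (Equiv.Perm (Fin n)) := ⊤

/-- The vertex reached after `i` steps by the decreasing walk from `(1, …, 1)` that switches off
the coordinate `x` at step `σ x + 1`. -/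
def walk {n : ℕ} (σ : Equiv.Perm (Fin n)) (i : ℕ) : Finset (Fin n) :=
  Finset.univ.filter fun x => i ≤ (σ x : ℕ)

/-- The index at which the walk meets the cluster `C` for the first time. -/
def hit {n : ℕ} (C : Finset (Finset (Fin n))) (σ : Equiv.Perm (Fin n)) : ℕ :=
  sInf {i : ℕ | walk σ i ∈ C}

/-- One step of the process: the last vertex of the walk before it meets `C` is added; once
`(1, …, 1)` is occupied nothing is changed any more. -/
def next {n : ℕ} (C : Finset (Finset (Fin n))) (σ : Equiv.Perm (Fin n)) :
    Finset (Finset (Fin n)) :=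
  if Finset.univ ∈ C then C else insert (walk σ (hit C σ - 1)) C

/-- The cluster `C_t` produced by the sequence `ρ` of permutations, started at
`C_0 = {(0, …, 0)}`. -/
def cluster {n : ℕ} (ρ : ℕ → Equiv.Perm (Fin n)) : ℕ → Finset (Finset (Fin n))
  | 0 => {∅}
  | t + 1 => next (cluster ρ t) (ρ t)

/-- The end time `min {t : (1, …, 1) ∈ C_t}`. -/
def tEnd {n : ℕ} (ρ : ℕ → Equiv.Perm (Fin n)) : ℝ≥0∞ :=
  ⨅ (t : ℕ) (_ : Finset.univ ∈ cluster ρ t), (t : ℝ≥0∞)

/-- The uniform distribution on permutations. -/
def unif (n : ℕ) : Measure (Equiv.Perm (Fin n)) :=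
  (PMF.uniformOfFintype (Equiv.Perm (Fin n))).toMeasure

/-- The law of a sequence of independent uniform permutations. -/
def law (n : ℕ) : Measure (ℕ → Equiv.Perm (Fin n)) := Measure.infinitePi fun _ => unif n

instance (n : ℕ) : IsProbabilityMeasure (unif n) := by
  unfold unif
  infer_instance

instance (n : ℕ) : IsProbabilityMeasure (law n) := by
  unfold law
  infer_instance

end Pool.Agent.V11331.DLA

end
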