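import Pool.Agent.V11331.DLA.Prob

set_option autoImplicit false

open MeasureTheory ProbabilityTheory Filter Topology
open scoped ENNReal

noncomputable section

namespace Pool.Agent.V11331.DLA

theorem binom_var (n : ℕ) :
    ∑ j ∈ Finset.range (n + 1), (n.choose j : ℝ) * (2 * (j : ℝ) - n) ^ 2 = (n : ℝ) * 2 ^ n := by
  have h := congrArg (Polynomial.eval (1 / 2 : ℝ)) (bernsteinPolynomial.variance ℝ n)
  rw [Polynomial.eval_finsetSum] at h
  simp only [bernsteinPolynomial, Polynomial.eval_mul, Polynomial.eval_pow, Polynomial.eval_sub,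
    Polynomial.eval_X, Polynomial.eval_natCast, Polynomial.eval_one,
    nsmul_eq_mul] at h
  have h2 : ∀ j ∈ Finset.range (n + 1), (n.choose j : ℝ) * (2 * (j : ℝ) - n) ^ 2 =
      4 * 2 ^ n * (((n : ℝ) * (1 / 2) - j) ^ 2 * ((n.choose j : ℝ) * (1 / 2) ^ j *
        (1 - 1 / 2) ^ (n - j))) := by
    intro j hj
    have hj2 : j ≤ n := by
      have := Finset.mem_range.1 hj
      omega
    have h3 : (1 / 2 : ℝ) ^ j * (1 - 1 / 2) ^ (n - j) = (1 / 2) ^ n := by
      have : (1 - 1 / 2 : ℝ) = 1 / 2 := by norm_num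
      rw [this, ← pow_add, Nat.add_sub_cancel' hj2]
    have h4 : (2 : ℝ) ^ n * (1 / 2) ^ n = 1 := by
      rw [← mul_pow]
      norm_num
    calc (n.choose j : ℝ) * (2 * j - n) ^ 2 = (n.choose j : ℝ) * (2 * j - n) ^ 2 * 1 := by ring
      _ = (n.choose j : ℝ) * (2 * j - n) ^ 2 * (2 ^ n * ((1 / 2) ^ j * (1 - 1 / 2) ^ (n - j))) := by
          rw [h3, h4]
      _ = _ := by ring
  rw [Finset.sum_congr rfl h2, ← Finset.mul_sum]
  have h5 : ∑ j ∈ Finset.range (n + 1), ((n : ℝ) * (1 / 2) - j) ^ 2 * ((n.choose j : ℝ) *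
      (1 / 2) ^ j * (1 - 1 / 2) ^ (n - j)) = (n : ℝ) * (1 / 2) * (1 - 1 / 2) := by
    rw [← h]
  rw [h5]
  ring

theorem log_le_sqrt {y : ℝ} (hy : 0 ≤ y) : Real.log (1 + y) ≤ √y := by
  have h1 : (1 + y) ≤ (1 + √y / 2 + (√y / 2) ^ 2 / 2) ^ 2 := by
    have h2 := Real.sq_sqrt hy
    have h3 := Real.sqrt_nonneg y
    nlinarith [pow_nonneg h3 3, pow_nonneg h3 4]
  have h2 : 1 + √y / 2 + (√y / 2) ^ 2 / 2 ≤ Real.exp (√y / 2) :=
    Real.quadratic_le_exp_of_nonneg (by positivity)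
  have h3 : 1 + y ≤ Real.exp (√y) := by
    have h4 : Real.exp (√y) = Real.exp (√y / 2) ^ 2 := by
      rw [← Real.exp_nat_mul]
      congr 1
      push_cast
      ring
    rw [h4]
    refine h1.trans (pow_le_pow_left₀ (by positivity) h2 2)
  rw [Real.log_le_iff_le_exp (by positivity)]
  exact h3

theorem card_D {n : ℕ} {δ : ℝ} (hδ : 0 ≤ δ) (D : Finset ℕ)
    (hD : ∀ j ∈ D, |2 * (j : ℝ) - n| ≤ δ * n) : (D.card : ℝ) ≤ δ * n + 1 := by
  set a : ℕ := ⌈((n : ℝ) - δ * n) / 2⌉₊ with ha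
  set b : ℕ := ⌊((n : ℝ) + δ * n) / 2⌋₊ with hb
  have hb0 : 0 ≤ ((n : ℝ) + δ * n) / 2 := by positivity
  have hsub : D ⊆ Finset.Icc a b := by
    intro j hj
    have h1 := abs_le.1 (hD j hj)
    rw [Finset.mem_Icc]
    constructor
    · rw [ha, Nat.ceil_le]
      linarith
    · rw [hb, Nat.le_floor_iff hb0]
      linarith
  have h1 : (D.card : ℝ) ≤ ((Finset.Icc a b).card : ℝ) := by
    exact_mod_cast Finset.card_le_card hsub
  refine h1.trans ?_
  rw [Nat.card_Icc]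
  have h2 : ((n : ℝ) - δ * n) / 2 ≤ a := Nat.le_ceil _
  have h3 : (b : ℝ) ≤ ((n : ℝ) + δ * n) / 2 := Nat.floor_le hb0
  rcases le_total a (b + 1) with h | h
  · rw [Nat.cast_sub h]
    push_cast
    linarith
  · rw [Nat.sub_eq_zero_of_le h]
    have : (0 : ℝ) ≤ δ * n := by positivity
    push_cast
    linarith

/-- the parameter -/
def kp (n : ℕ) : ℝ := n / (4 * 2 ^ n)

theorem kp_nonneg (n : ℕ) : 0 ≤ kp n := by
  unfold kp
  positivity

theorem kp_mul (n : ℕ) : kp n * 2 ^ n = n / 4 := by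
  unfold kp
  field_simp

theorem log_Sj (n : ℕ) : Real.log (Sj (kp n) n n) ≤
    ∑ j ∈ Finset.range (n + 1), Real.log (1 + kp n * n.choose j) := by
  have hk := kp_nonneg n
  unfold Sj
  rw [Real.log_prod fun i _ => by positivity, Finset.sum_range_succ']
  have : 0 ≤ Real.log (1 + kp n * (n.choose 0)) := Real.log_nonneg (by
    have : 0 ≤ kp n * (n.choose 0) := by positivity
    linarith)
  linarith

theorem log_Sj_le {n : ℕ} (hn : 0 < n) {δ : ℝ} (hδ : 0 < δ) :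
    Real.log (Sj (kp n) n n) ≤ √((δ * n + 1) * (n / 4)) + 1 / (4 * δ ^ 2) := by
  have hk := kp_nonneg n
  have hn0 : (0 : ℝ) < n := by exact_mod_cast hn
  refine (log_Sj n).trans ?_
  rw [← Finset.sum_filter_add_sum_filter_not (Finset.range (n + 1))
    (fun j : ℕ => |2 * (j : ℝ) - n| ≤ δ * n)]
  set D := (Finset.range (n + 1)).filter fun j : ℕ => |2 * (j : ℝ) - n| ≤ δ * n with hD
  set D' := (Finset.range (n + 1)).filter fun j : ℕ => ¬ |2 * (j : ℝ) - n| ≤ δ * n with hD'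
  refine add_le_add ?_ ?_
  · have h1 : ∑ j ∈ D, Real.log (1 + kp n * n.choose j) ≤ ∑ j ∈ D, √(kp n * n.choose j) * 1 := by
      refine Finset.sum_le_sum fun j _ => ?_
      rw [mul_one]
      exact log_le_sqrt (by positivity)
    refine h1.trans ?_
    refine Real.le_sqrt_of_sq_le ?_
    refine (Finset.sum_mul_sq_le_sq_mul_sq _ _ _).trans ?_
    have h2 : ∑ j ∈ D, √(kp n * n.choose j) ^ 2 ≤ n / 4 := by
      have h3 : ∀ j ∈ D, √(kp n * n.choose j) ^ 2 = kp n * n.choose j := fun j _ =>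
        Real.sq_sqrt (by positivity)
      rw [Finset.sum_congr rfl h3, ← Finset.mul_sum, ← kp_mul]
      refine mul_le_mul_of_nonneg_left ?_ hk
      have h4 : ∑ j ∈ D, (n.choose j : ℝ) ≤ ∑ j ∈ Finset.range (n + 1), (n.choose j : ℝ) :=
        Finset.sum_le_sum_of_subset_of_nonneg (Finset.filter_subset _ _) fun _ _ _ => by positivity
      refine h4.trans (le_of_eq ?_)
      have := Nat.sum_range_choose n
      exact_mod_cast this
    have h3 : ∑ _j ∈ D, (1 : ℝ) ^ 2 ≤ δ * n + 1 := by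
      simp only [one_pow, Finset.sum_const, nsmul_eq_mul, mul_one]
      exact card_D hδ.le D fun j hj => (Finset.mem_filter.1 hj).2
    calc (∑ j ∈ D, √(kp n * n.choose j) ^ 2) * ∑ _j ∈ D, (1 : ℝ) ^ 2 ≤
        (n / 4) * (δ * n + 1) := mul_le_mul h2 h3 (by positivity) (by positivity)
      _ = _ := by ring
  · have h1 : ∀ j ∈ D', Real.log (1 + kp n * n.choose j) ≤
        kp n * ((n.choose j : ℝ) * (2 * j - n) ^ 2) / (δ * n) ^ 2 := by
      intro j hj
      have h2 := (Finset.mem_filter.1 hj).2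
      rw [not_le] at h2
      have h3 : (δ * n) ^ 2 ≤ (2 * (j : ℝ) - n) ^ 2 := by
        rw [← sq_abs (2 * (j : ℝ) - n)]
        exact pow_le_pow_left₀ (by positivity) h2.le 2
      have h4 : 0 ≤ kp n * (n.choose j : ℝ) := by positivity
      have h5 : Real.log (1 + kp n * n.choose j) ≤ kp n * n.choose j := by
        have := Real.log_le_sub_one_of_pos (x := 1 + kp n * n.choose j) (by positivity)
        linarith
      refine h5.trans ?_
      rw [le_div_iff₀ (by positivity)]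
      calc kp n * (n.choose j : ℝ) * (δ * n) ^ 2 ≤ kp n * (n.choose j : ℝ) * (2 * (j : ℝ) - n) ^ 2 :=
            mul_le_mul_of_nonneg_left h3 h4
        _ = _ := by ring
    refine (Finset.sum_le_sum h1).trans ?_
    have h2 : ∑ j ∈ D', kp n * ((n.choose j : ℝ) * (2 * j - n) ^ 2) / (δ * n) ^ 2 ≤
        ∑ j ∈ Finset.range (n + 1), kp n * ((n.choose j : ℝ) * (2 * j - n) ^ 2) / (δ * n) ^ 2 :=
      Finset.sum_le_sum_of_subset_of_nonneg (Finset.filter_subset _ _) fun _ _ _ => by positivity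
    refine h2.trans (le_of_eq ?_)
    rw [← Finset.sum_div, ← Finset.mul_sum, binom_var]
    have h3 : kp n * (n * 2 ^ n) = n * (n / 4) := by
      rw [← kp_mul]
      ring
    rw [h3]
    field_simp

theorem kp_Sj (n : ℕ) : kp n * Sj (kp n) n n ≤ 1 := by
  have hk := kp_nonneg n
  have h1 : Sj (kp n) n n ≤ Real.exp (n / 4) := by
    unfold Sj
    have h2 : ∏ i ∈ Finset.range n, (1 + kp n * (n.choose (i + 1))) ≤
        ∏ i ∈ Finset.range n, Real.exp (kp n * (n.choose (i + 1))) := by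
      refine Finset.prod_le_prod (fun i _ => by positivity) fun i _ => ?_
      have := Real.add_one_le_exp (kp n * (n.choose (i + 1)))
      linarith
    refine h2.trans ?_
    rw [← Real.exp_sum, ← Finset.mul_sum, Real.exp_le_exp, ← kp_mul]
    refine mul_le_mul_of_nonneg_left ?_ hk
    have h3 : ∑ i ∈ Finset.range n, (n.choose (i + 1) : ℝ) ≤
        ∑ j ∈ Finset.range (n + 1), (n.choose j : ℝ) := by
      rw [Finset.sum_range_succ' _ n]
      have : (0 : ℝ) ≤ (n.choose 0 : ℝ) := by positivity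
      linarith
    refine h3.trans (le_of_eq ?_)
    have := Nat.sum_range_choose n
    exact_mod_cast this
  have h2 : (n : ℝ) / 4 ≤ Real.exp (n / 4) := by
    have := Real.add_one_le_exp ((n : ℝ) / 4)
    linarith
  have h3 : Real.exp ((n : ℝ) / 4) * Real.exp (n / 4) ≤ 2 ^ n := by
    rw [← Real.exp_add]
    have h4 : (n : ℝ) / 4 + n / 4 = n * (1 / 2) := by ring
    rw [h4, Real.exp_nat_mul]
    refine pow_le_pow_left₀ (Real.exp_pos _).le ?_ n
    have h5 : Real.exp (1 / 2) ^ 2 ≤ 2 ^ 2 := by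
      rw [← Real.exp_nat_mul]
      have h6 : ((2 : ℕ) : ℝ) * (1 / 2) = 1 := by norm_num
      rw [h6]
      have := Real.exp_one_lt_d9
      linarith
    exact le_of_sq_le_sq h5 (by norm_num)
  calc kp n * Sj (kp n) n n ≤ kp n * Real.exp (n / 4) := mul_le_mul_of_nonneg_left h1 hk
    _ = (n / 4) * Real.exp (n / 4) / 2 ^ n := by
        unfold kp
        field_simp
    _ ≤ Real.exp (n / 4) * Real.exp (n / 4) / 2 ^ n := by
        gcongr
    _ ≤ 1 := by
        rw [div_le_one (by positivity)]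
        exact h3

theorem pr_le {n : ℕ} (hn : 0 < n) {ε η : ℝ} (hε : 0 < ε) (hη : 0 < η)
    (h1 : 2 ≤ ε * 2 ^ n) (h2 : 1 ≤ η ^ 2 * n) (h3 : 1 ≤ η ^ 5 * n) :
    pr n ⌊ε * 2 ^ n⌋₊ ≤ 16 * η / ε := by
  have hn0 : (0 : ℝ) < n := by exact_mod_cast hn
  have hm := main_bound (kp_nonneg n) (kp_Sj n) ⌊ε * 2 ^ n⌋₊
  have hl := log_Sj_le hn (δ := η ^ 2) (by positivity)
  have hl2 : Real.log (Sj (kp n) n n) ≤ η * n := by
    refine hl.trans ?_
    have e1 : √((η ^ 2 * n + 1) * (n / 4)) ≤ 3 / 4 * (η * n) := by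
      rw [Real.sqrt_le_left (by positivity)]
      nlinarith [mul_pos hn0 hn0]
    have e2 : 1 / (4 * (η ^ 2) ^ 2) ≤ 1 / 4 * (η * n) := by
      rw [div_le_iff₀ (by positivity)]
      have : 1 / 4 * (η * n) * (4 * (η ^ 2) ^ 2) = η ^ 5 * n := by ring
      rw [this]
      exact h3
    linarith
  have hT : ε * 2 ^ n / 2 ≤ (⌊ε * 2 ^ n⌋₊ : ℝ) := by
    have := Nat.lt_floor_add_one (ε * 2 ^ n)
    linarith
  have hp0 : 0 ≤ pr n ⌊ε * 2 ^ n⌋₊ := measureReal_nonneg
  have h4 : kp n / 2 * (ε * 2 ^ n / 2 * pr n ⌊ε * 2 ^ n⌋₊) ≤ η * n := by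
    refine le_trans ?_ (hm.trans hl2)
    have hk := kp_nonneg n
    gcongr
  have h5 : kp n / 2 * (ε * 2 ^ n / 2 * pr n ⌊ε * 2 ^ n⌋₊) =
      n * (ε / 16 * pr n ⌊ε * 2 ^ n⌋₊) := by
    have : kp n / 2 * (ε * 2 ^ n / 2 * pr n ⌊ε * 2 ^ n⌋₊) =
        (kp n * 2 ^ n) * (ε / 4 * pr n ⌊ε * 2 ^ n⌋₊) := by ring
    rw [this, kp_mul]
    ring
  rw [h5, mul_comm η] at h4
  have h6 := le_of_mul_le_mul_left h4 hn0
  rw [le_div_iff₀ hε]
  linarith

theorem final (ε : ℝ) (hε : 0 < ε) :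
    Tendsto (fun n : ℕ => law n {ρ | ENNReal.ofReal (ε * 2 ^ n) < tEnd ρ}) atTop (𝓝 0) := by
  have hsub : ∀ n : ℕ, law n {ρ | ENNReal.ofReal (ε * 2 ^ n) < tEnd ρ} ≤
      ENNReal.ofReal (pr n ⌊ε * 2 ^ n⌋₊) := by
    intro n
    unfold pr
    rw [ofReal_measureReal]
    refine measure_mono ?_
    intro ρ h h2
    have h3 : tEnd ρ ≤ ENNReal.ofReal (ε * 2 ^ n) := by
      unfold tEnd
      refine (iInf₂_le (f := fun (t : ℕ) (_ : Finset.univ ∈ cluster ρ t) => (t : ℝ≥0∞)) _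
        h2).trans ?_
      rw [← ENNReal.ofReal_natCast]
      exact ENNReal.ofReal_le_ofReal (Nat.floor_le (by positivity))
    exact absurd h (not_lt.2 h3)
  have hpr : Tendsto (fun n : ℕ => pr n ⌊ε * 2 ^ n⌋₊) atTop (𝓝 0) := by
    rw [Metric.tendsto_atTop]
    intro r hr
    set η : ℝ := r * ε / 32 with hη
    have hη0 : 0 < η := by positivity
    have t1 : ∀ᶠ n : ℕ in atTop, 2 ≤ ε * 2 ^ n :=
      (Tendsto.const_mul_atTop hε (tendsto_pow_atTop_atTop_of_one_lt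
        (one_lt_two))).eventually_ge_atTop 2
    have t2 : ∀ᶠ n : ℕ in atTop, 1 ≤ η ^ 2 * n :=
      (Tendsto.const_mul_atTop (by positivity) tendsto_natCast_atTop_atTop).eventually_ge_atTop 1
    have t3 : ∀ᶠ n : ℕ in atTop, 1 ≤ η ^ 5 * n :=
      (Tendsto.const_mul_atTop (by positivity) tendsto_natCast_atTop_atTop).eventually_ge_atTop 1
    obtain ⟨N, hN⟩ := eventually_atTop.1 (t1.and (t2.and (t3.and (eventually_gt_atTop 0))))
    refine ⟨N, fun n hn => ?_⟩
    obtain ⟨a1, a2, a3, a4⟩ := hN n hn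
    have h := pr_le a4 hε hη0 a1 a2 a3
    have hp0 : 0 ≤ pr n ⌊ε * 2 ^ n⌋₊ := measureReal_nonneg
    rw [Real.dist_eq, sub_zero, abs_of_nonneg hp0]
    refine lt_of_le_of_lt h ?_
    rw [hη]
    have : 16 * (r * ε / 32) / ε = r / 2 := by
      field_simp
      norm_num
    rw [this]
    linarith
  have h0 : Tendsto (fun n : ℕ => ENNReal.ofReal (pr n ⌊ε * 2 ^ n⌋₊)) atTop (𝓝 0) := by
    have := (ENNReal.continuous_ofReal.tendsto 0).comp hpr
    rw [ENNReal.ofReal_zero] at this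
    exact this
  exact tendsto_of_tendsto_of_tendsto_of_le_of_le tendsto_const_nhds h0
    (fun _ => bot_le) hsub

end Pool.Agent.V11331.DLA

end
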