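import Pool.Agent.V11331.DLA.Comb

set_option autoImplicit false

open MeasureTheory ProbabilityTheory Filter Topology
open scoped ENNReal

noncomputable section

namespace Pool.Agent.V11331.DLA

variable {n : ℕ}

instance clMS (n : ℕ) : MeasurableSpace (Finset (Finset (Fin n))) := ⊤

instance (n : ℕ) : MeasurableSingletonClass (Equiv.Perm (Fin n)) := ⟨fun _ => trivial⟩

instance (n : ℕ) : MeasurableSingletonClass (Finset (Finset (Fin n))) := ⟨fun _ => trivial⟩

theorem cluster_meas (t : ℕ) :
    Measurable fun ρ : ℕ → Equiv.Perm (Fin n) => cluster ρ t := by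
  induction t with
  | zero => exact measurable_const
  | succ t ih =>
    have h1 : Measurable fun p : Finset (Finset (Fin n)) × Equiv.Perm (Fin n) =>
        next p.1 p.2 := measurable_of_countable _
    exact h1.comp (ih.prodMk (measurable_pi_apply t))

theorem indep_cluster (t : ℕ) :
    IndepFun (fun ρ : ℕ → Equiv.Perm (Fin n) => cluster ρ t)
      (fun ρ : ℕ → Equiv.Perm (Fin n) => ρ t) (law n) := by
  have h := iIndepFun_infinitePi (P := fun _ : ℕ => unif n)
    (X := fun (_ : ℕ) (σ : Equiv.Perm (Fin n)) => σ) fun _ => measurable_id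
  have h2 := h.indepFun_finset (Finset.range t) {t} (by simp) (fun i => measurable_pi_apply i)
  let ext : (Finset.range t → Equiv.Perm (Fin n)) → ℕ → Equiv.Perm (Fin n) :=
    fun y i => if hi : i ∈ Finset.range t then y ⟨i, hi⟩ else 1
  have hext : Measurable ext := by
    refine measurable_pi_lambda _ fun i => ?_
    by_cases hi : i ∈ Finset.range t
    · have : (fun y : Finset.range t → Equiv.Perm (Fin n) => ext y i) = fun y => y ⟨i, hi⟩ := by
        funext y
        exact dif_pos hi
      rw [this]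
      exact measurable_pi_apply _
    · have : (fun y : Finset.range t → Equiv.Perm (Fin n) => ext y i) = fun _ => 1 := by
        funext y
        exact dif_neg hi
      rw [this]
      exact measurable_const
  have hψ : Measurable fun y : ({t} : Finset ℕ) → Equiv.Perm (Fin n) =>
      y ⟨t, Finset.mem_singleton_self t⟩ :=
    measurable_pi_apply (⟨t, Finset.mem_singleton_self t⟩ : ({t} : Finset ℕ))
  have h3 := h2.comp ((cluster_meas t).comp hext) hψ
  have e1 : (fun ρ : ℕ → Equiv.Perm (Fin n) => cluster ρ t) =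
      (fun y => cluster (ext y) t) ∘ fun (ρ : ℕ → Equiv.Perm (Fin n)) (i : Finset.range t) =>
        ρ i := by
    funext ρ
    refine cluster_congr t fun i hi => ?_
    show ρ i = if hi : i ∈ Finset.range t then ρ i else 1
    rw [dif_pos (Finset.mem_range.2 hi)]
  rw [e1]
  exact h3

theorem integral_unif (f : Equiv.Perm (Fin n) → ℝ) :
    ∫ σ, f σ ∂(unif n) = (n.factorial : ℝ)⁻¹ * ∑ σ, f σ := by
  unfold unif
  rw [PMF.integral_eq_sum, Finset.mul_sum]
  refine Finset.sum_congr rfl fun σ _ => ?_
  rw [PMF.uniformOfFintype_apply, Fintype.card_perm, Fintype.card_fin, smul_eq_mul]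
  simp

theorem exp_step (g : Finset (Finset (Fin n)) → Equiv.Perm (Fin n) → ℝ) (t : ℕ) :
    ∫ ρ, g (cluster ρ t) (ρ t) ∂(law n) =
      ∫ ρ, (n.factorial : ℝ)⁻¹ * ∑ σ, g (cluster ρ t) σ ∂(law n) := by
  have h1 := (indepFun_iff_map_prod_eq_prod_map_map (cluster_meas (n := n) t).aemeasurable
    (measurable_pi_apply t).aemeasurable).1 (indep_cluster t)
  have h2 : (law n).map (fun ρ : ℕ → Equiv.Perm (Fin n) => ρ t) = unif n :=
    (measurePreserving_eval_infinitePi (fun _ : ℕ => unif n) t).map_eq
  rw [h2] at h1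
  have : IsProbabilityMeasure ((law n).map fun ρ : ℕ → Equiv.Perm (Fin n) => cluster ρ t) :=
    Measure.isProbabilityMeasure_map (cluster_meas t).aemeasurable
  have h3 : ∫ ρ, g (cluster ρ t) (ρ t) ∂(law n) =
      ∫ p, g p.1 p.2 ∂((law n).map fun ρ : ℕ → Equiv.Perm (Fin n) => (cluster ρ t, ρ t)) := by
    rw [integral_map ((cluster_meas t).prodMk (measurable_pi_apply t)).aemeasurable]
    exact (measurable_of_countable _).aestronglyMeasurable
  rw [h3, h1, integral_prod _ Integrable.of_finite]
  simp only [integral_unif]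
  rw [integral_map (cluster_meas t).aemeasurable]
  exact (measurable_of_countable _).aestronglyMeasurable

theorem int_cluster (f : Finset (Finset (Fin n)) → ℝ) (t : ℕ) :
    Integrable (fun ρ => f (cluster ρ t)) (law n) := by
  have : IsProbabilityMeasure ((law n).map fun ρ : ℕ → Equiv.Perm (Fin n) => cluster ρ t) :=
    Measure.isProbabilityMeasure_map (cluster_meas t).aemeasurable
  have h : Integrable f ((law n).map fun ρ : ℕ → Equiv.Perm (Fin n) => cluster ρ t) :=
    Integrable.of_finite
  exact h.comp_measurable (cluster_meas t)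

/-- the probability that the process has not stopped -/
def pr (n t : ℕ) : ℝ := (law n).real {ρ | Finset.univ ∉ cluster ρ t}

theorem set_meas (t : ℕ) :
    MeasurableSet {ρ : ℕ → Equiv.Perm (Fin n) | Finset.univ ∉ cluster ρ t} := by
  have : MeasurableSet {C : Finset (Finset (Fin n)) | Finset.univ ∉ C} := trivial
  exact cluster_meas t this

theorem pr_eq (n t : ℕ) :
    pr n t = ∫ ρ : ℕ → Equiv.Perm (Fin n), (if Finset.univ ∈ cluster ρ t then 0 else 1) ∂(law n) := by
  have h : ∀ ρ : ℕ → Equiv.Perm (Fin n), (if Finset.univ ∈ cluster ρ t then (0 : ℝ) else 1) =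
      {ρ : ℕ → Equiv.Perm (Fin n) | Finset.univ ∉ cluster ρ t}.indicator (fun _ => 1) ρ := by
    intro ρ
    by_cases h1 : Finset.univ ∈ cluster ρ t
    · rw [if_pos h1, Set.indicator_of_notMem]
      exact fun h2 => h2 h1
    · rw [if_neg h1, Set.indicator_of_mem]
      exact h1
  simp only [h]
  rw [integral_indicator (set_meas t)]
  simp [pr]

theorem pr_anti (n : ℕ) : Antitone (pr n) := by
  intro s t hst
  unfold pr
  refine measureReal_mono ?_
  intro ρ h h2
  exact h (univ_mono ρ hst h2)

theorem log_exp_step {κ : ℝ} (hκ : 0 ≤ κ) (h1 : κ * Sj κ n n ≤ 1) (t : ℕ) :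
    ∫ ρ, Real.log (M κ (cluster ρ t)) ∂(law n) + κ / 2 * pr n t ≤
      ∫ ρ, Real.log (M κ (cluster ρ (t + 1))) ∂(law n) := by
  have e1 : ∫ ρ, Real.log (M κ (cluster ρ (t + 1))) ∂(law n) =
      ∫ ρ, (n.factorial : ℝ)⁻¹ * ∑ σ, Real.log (M κ (next (cluster ρ t) σ)) ∂(law n) :=
    exp_step (fun C σ => Real.log (M κ (next C σ))) t
  rw [e1, pr_eq, ← integral_const_mul, ← integral_add (int_cluster (fun C => Real.log (M κ C)) t)
    ((int_cluster (fun C => if Finset.univ ∈ C then (0 : ℝ) else 1) t).const_mul _)]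
  refine integral_mono ((int_cluster (fun C => Real.log (M κ C)) t).add
    ((int_cluster (fun C => if Finset.univ ∈ C then (0 : ℝ) else 1) t).const_mul _))
    (int_cluster (fun C => (n.factorial : ℝ)⁻¹ * ∑ σ, Real.log (M κ (next C σ))) t) ?_
  intro ρ
  have hf : (0 : ℝ) < n.factorial := by positivity
  simp only
  rw [inv_mul_eq_div, le_div_iff₀ hf, mul_comm]
  by_cases h2 : Finset.univ ∈ cluster ρ t
  · rw [if_pos h2]
    have h3 : ∀ σ, next (cluster ρ t) σ = cluster ρ t := by
      intro σ
      unfold next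
      rw [if_pos h2]
    simp only [h3]
    rw [Finset.sum_const, Finset.card_univ, Fintype.card_perm, Fintype.card_fin, nsmul_eq_mul]
    simp
  · rw [if_neg h2, mul_one]
    exact log_drift hκ h1 (empty_mem ρ t) h2

theorem main_bound {κ : ℝ} (hκ : 0 ≤ κ) (h1 : κ * Sj κ n n ≤ 1) (T : ℕ) :
    κ / 2 * (T * pr n T) ≤ Real.log (Sj κ n n) := by
  have h2 : ∀ t : ℕ, κ / 2 * ∑ s ∈ Finset.range t, pr n s ≤
      ∫ ρ, Real.log (M κ (cluster ρ t)) ∂(law n) := by
    intro t
    induction t with
    | zero =>
      simp only [Finset.range_zero, Finset.sum_empty, mul_zero]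
      exact integral_nonneg fun ρ => Real.log_nonneg (one_le_M hκ (empty_mem ρ 0))
    | succ t ih =>
      rw [Finset.sum_range_succ, mul_add]
      have := log_exp_step hκ h1 t
      linarith
  have h3 : ∫ ρ, Real.log (M κ (cluster ρ T)) ∂(law n) ≤ Real.log (Sj κ n n) := by
    have h4 : ∫ ρ, Real.log (M κ (cluster ρ T)) ∂(law n) ≤
        ∫ _ρ : ℕ → Equiv.Perm (Fin n), Real.log (Sj κ n n) ∂(law n) := by
      refine integral_mono (int_cluster (fun C => Real.log (M κ C)) T) (integrable_const _) ?_
      intro ρ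
      refine Real.log_le_log ?_ (M_le hκ _)
      have := one_le_M hκ (empty_mem ρ T)
      linarith
    refine h4.trans ?_
    simp
  have h5 : (T : ℝ) * pr n T ≤ ∑ s ∈ Finset.range T, pr n s := by
    have h6 : ∑ s ∈ Finset.range T, pr n T ≤ ∑ s ∈ Finset.range T, pr n s :=
      Finset.sum_le_sum fun s hs => pr_anti n (Finset.mem_range.1 hs).le
    rw [Finset.sum_const, Finset.card_range, nsmul_eq_mul] at h6
    exact h6
  have h7 := mul_le_mul_of_nonneg_left h5 (show 0 ≤ κ / 2 by positivity)
  exact h7.trans ((h2 T).trans h3)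

end Pool.Agent.V11331.DLA

end
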